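import Pool.Agent.Helper92.FR.GoalsB

/-!
# Few rows in a box: packet CPA (convergence of the cutting plane method)
-/

namespace Pool.Agent.Helper41.FR

open Pool.Agent.Helper92.FR

noncomputable section

/-- A nonnegative matrix with row sums one has determinant at most one in absolute value. -/
lemma abs_det_le_one {m : ℕ} (A : Matrix (Fin m) (Fin m) ℝ) (h0 : ∀ i j, 0 ≤ A i j)
    (h1 : ∀ i, ∑ j, A i j = 1) : |A.det| ≤ 1 := by
  rw [← Matrix.det_transpose, Matrix.det_apply']
  calc |∑ σ : Equiv.Perm (Fin m), ((Equiv.Perm.sign σ : ℤ) : ℝ) * ∏ i, A.transpose (σ i) i|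
      ≤ ∑ σ : Equiv.Perm (Fin m), |((Equiv.Perm.sign σ : ℤ) : ℝ) * ∏ i, A.transpose (σ i) i| :=
        Finset.abs_sum_le_sum_abs _ _
    _ = ∑ σ : Equiv.Perm (Fin m), ∏ i, A i (σ i) := by
        refine Finset.sum_congr rfl fun σ _ => ?_
        rw [abs_mul]
        have e1 : |((Equiv.Perm.sign σ : ℤ) : ℝ)| = 1 := by
          rcases Int.units_eq_one_or (Equiv.Perm.sign σ) with h | h <;> rw [h] <;> norm_num
        rw [e1, one_mul, abs_of_nonneg]
        · rfl
        · exact Finset.prod_nonneg fun i _ => h0 _ _
    _ ≤ ∑ f : Fin m → Fin m, ∏ i, A i (f i) := by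
        have hinj : Function.Injective (fun σ : Equiv.Perm (Fin m) => (σ : Fin m → Fin m)) :=
          fun σ τ h => Equiv.ext fun x => congrFun h x
        rw [← Finset.sum_image (s := Finset.univ)
          (g := fun σ : Equiv.Perm (Fin m) => (σ : Fin m → Fin m))
          (f := fun f : Fin m → Fin m => ∏ i, A i (f i)) (fun x _ y _ h => hinj h)]
        refine Finset.sum_le_sum_of_subset_of_nonneg (Finset.subset_univ _) ?_
        intro f _ _
        exact Finset.prod_nonneg fun i _ => h0 _ _
    _ = ∏ i, ∑ j, A i j := by
        rw [Finset.prod_univ_sum, Fintype.piFinset_univ]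
    _ = 1 := by
        simp only [h1, Finset.prod_const_one]

/-- The determinant of a corner simplex. -/
lemma det_corner {d : ℕ} (a : Fin d → ℝ) (s : ℝ) (V : Fin (d + 1) → Fin d → ℝ)
    (hV : ∀ i l, V i l = if i.val = l.val + 1 then a l + s else a l) :
    (hom V).det = s ^ d := by
  set M : Matrix (Fin (d + 1)) (Fin (d + 1)) ℝ :=
    fun i => if i = 0 then Fin.cons 1 a else fun j => if j = i then s else 0 with hM
  have h1 : (hom V).det = M.det := by
    refine Matrix.det_eq_of_forall_row_eq_smul_add_const (fun i => if i = 0 then 0 else 1) 0 ?_ ?_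
    · simp
    · intro i j
      refine Fin.cases ?_ (fun i' => ?_) i
      · refine Fin.cases ?_ (fun j' => ?_) j
        · simp [hom, hM]
        · simp [hom, hM, hV]
      · refine Fin.cases ?_ (fun j' => ?_) j
        · simp [hom, hM, Fin.succ_ne_zero, Fin.succ_ne_zero i' |>.symm]
        · simp only [hom, hM, Fin.cons_succ, hV, Fin.val_succ, Fin.succ_ne_zero, if_false, if_true,
            one_mul, Fin.succ_inj, Nat.add_right_cancel_iff]
          by_cases h : i' = j'
          · subst h
            simp [add_comm]
          · have h2 : ¬ (i'.val = j'.val) := fun h' => h (Fin.ext h')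
            have h3 : ¬ (j' = i') := fun h' => h h'.symm
            simp [h2, h3]
  have h2 : M.BlockTriangular id := by
    intro i j hij
    simp only [id] at hij
    have hi : i ≠ 0 := by
      intro h
      rw [h] at hij
      exact absurd hij (Fin.not_lt_zero j)
    simp only [hM, if_neg hi]
    rw [if_neg (ne_of_lt hij)]
  rw [h1, Matrix.det_of_upperTriangular h2, Fin.prod_univ_succ]
  simp [hM, Fin.succ_ne_zero]

theorem cpa (hC : CutStmt) : CpaStmt := by
  intro d hd V g B T hB hV0 hcut
  have hdR : (1 : ℝ) ≤ d := by exact_mod_cast hd
  refine ⟨?_, ?_⟩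
  · intro k
    induction k with
    | zero =>
      intro _ i l
      rw [hV0, pow_zero, one_mul]
      split_ifs
      · rw [abs_of_nonneg (mul_nonneg (by linarith) hB.le)]
        nlinarith
      · rw [abs_neg, abs_of_pos hB]
        nlinarith
    | succ k ih =>
      intro hk i l
      have h1 := (hC d hd (V k) (V (k + 1)) (g k) (hcut k (by omega))).2.2
        (5 ^ k * (2 * d * B)) (ih (by omega)) i l
      rw [pow_succ]
      linarith
  · intro ρ y hρ hy hT
    by_contra hcon
    push Not at hcon
    -- the corners of the cube
    set p : Fin (d + 1) → Fin d → ℝ :=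
      fun i l => if i.val = l.val + 1 then y l + ρ else y l with hp
    have hpc : ∀ i l, y l ≤ p i l ∧ p i l ≤ y l + ρ := by
      intro i l
      simp only [hp]
      split_ifs
      · exact ⟨by linarith, le_rfl⟩
      · exact ⟨le_rfl, by linarith⟩
    have hin : ∀ k ≤ T, ∀ i, InS (V k) (p i) := by
      intro k
      induction k with
      | zero =>
        intro _ i
        -- coordinates in the first simplex
        have h2dB : (0 : ℝ) < 2 * d * B := by positivity
        set c : Fin d → ℝ := fun l => (p i l + B) / (2 * d * B) with hc
        have hc0 : ∀ l, 0 ≤ c l := by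
          intro l
          have h1 := (hpc i l).1
          have h2 := (hy l).1
          exact div_nonneg (by linarith) h2dB.le
        have hc1 : ∑ l, c l ≤ 1 := by
          have h1 : ∀ l ∈ (Finset.univ : Finset (Fin d)), c l ≤ 1 / d := by
            intro l _
            have h1 := (hpc i l).2
            have h2 := (hy l).2
            simp only [hc]
            rw [div_le_div_iff₀ h2dB (by linarith)]
            nlinarith
          calc ∑ l, c l ≤ ∑ l : Fin d, (1 : ℝ) / d := Finset.sum_le_sum h1
            _ = 1 := by
              rw [Finset.sum_const, Finset.card_univ, Fintype.card_fin, nsmul_eq_mul]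
              field_simp
        refine ⟨Fin.cons (1 - ∑ l, c l) c, ?_, ?_, ?_⟩
        · intro j
          refine Fin.cases ?_ (fun j' => ?_) j
          · rw [Fin.cons_zero]
            linarith
          · rw [Fin.cons_succ]
            exact hc0 j'
        · rw [Fin.sum_univ_succ]
          simp only [Fin.cons_zero, Fin.cons_succ]
          ring
        · intro l
          rw [Fin.sum_univ_succ]
          simp only [Fin.cons_zero, Fin.cons_succ]
          have h1 : ∀ j : Fin d, c j * V 0 j.succ l =
              - B * c j + (if j = l then (2 * d * B) * c j else 0) := by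
            intro j
            rw [hV0]
            by_cases h : j = l
            · subst h
              simp only [Fin.val_succ, if_true]
              ring
            · have h2 : ¬ (j.succ.val = l.val + 1) := by
                intro h'
                apply h
                apply Fin.ext
                simpa using h'
              rw [if_neg h2, if_neg h]
              ring
          have h3 : V 0 0 l = -B := by
            rw [hV0]
            simp
          rw [Finset.sum_congr rfl fun j _ => h1 j, Finset.sum_add_distrib, ← Finset.mul_sum,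
            Finset.sum_ite_eq' Finset.univ l, if_pos (Finset.mem_univ l), h3]
          simp only [hc]
          field_simp
          ring
      | succ k ih =>
        intro hk i
        have h1 := (hC d hd (V k) (V (k + 1)) (g k) (hcut k (by omega))).1 (p i)
          (ih (by omega) i)
        exact h1 (hcon k (by omega) (p i) (ih (by omega) i) (hpc i))
    -- determinants
    have hstep : ∀ k < T, |(hom (V (k + 1))).det| ≤
        Real.exp (-(1 / (8 * ((d : ℝ) + 1) ^ 2))) * |(hom (V k)).det| := by
      intro k hk
      refine (hC d hd (V k) (V (k + 1)) (g k) (hcut k hk)).2.1 ?_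
      by_contra hno
      push Not at hno
      obtain ⟨b, hb0, hb1, hb⟩ := hin k hk.le 0
      have h1 := hcon k hk (p 0) (hin k hk.le 0) (hpc 0)
      have h2 : ∑ l, g k l * (p 0 l - cent (V k) l) = ∑ i, b i * gamR (V k) (g k) i := by
        have h3 : ∀ l, g k l * (p 0 l - cent (V k) l) =
            ∑ i, b i * (g k l * (V k i l - cent (V k) l)) := by
          intro l
          rw [hb l]
          have h4 : cent (V k) l = ∑ i, b i * cent (V k) l := by
            rw [← Finset.sum_mul, hb1, one_mul]
          conv_lhs => rw [h4]
          rw [← Finset.sum_sub_distrib, Finset.mul_sum]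
          refine Finset.sum_congr rfl fun i _ => ?_
          ring
        rw [Finset.sum_congr rfl fun l _ => h3 l, Finset.sum_comm]
        refine Finset.sum_congr rfl fun i _ => ?_
        rw [gamR, Finset.mul_sum]
      have h5 : 0 ≤ ∑ i, b i * gamR (V k) (g k) i :=
        Finset.sum_nonneg fun i _ => mul_nonneg (hb0 i) (hno i)
      linarith
    have hdet : ∀ k ≤ T, |(hom (V k)).det| ≤
        Real.exp (-(k / (8 * ((d : ℝ) + 1) ^ 2))) * (2 * d * B) ^ d := by
      intro k
      induction k with
      | zero =>
        intro _
        have h1 := det_corner (fun _ : Fin d => -B) (2 * d * B) (V 0) (by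
          intro i l
          rw [hV0]
          split_ifs
          · ring
          · rfl)
        rw [h1, abs_of_nonneg (by positivity)]
        simp
      | succ k ih =>
        intro hk
        calc |(hom (V (k + 1))).det|
            ≤ Real.exp (-(1 / (8 * ((d : ℝ) + 1) ^ 2))) * |(hom (V k)).det| := hstep k (by omega)
          _ ≤ Real.exp (-(1 / (8 * ((d : ℝ) + 1) ^ 2))) *
              (Real.exp (-(k / (8 * ((d : ℝ) + 1) ^ 2))) * (2 * d * B) ^ d) :=
              mul_le_mul_of_nonneg_left (ih (by omega)) (Real.exp_pos _).le
          _ = _ := by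
              rw [← mul_assoc, ← Real.exp_add]
              congr 2
              push_cast
              ring
    have hpdet : (hom p).det = ρ ^ d := det_corner y ρ p (fun i l => rfl)
    -- the corners are convex combinations of the vertices
    choose b hb0 hb1 hb using hin T le_rfl
    have hmul : hom p = Matrix.of b * hom (V T) := by
      ext i j
      rw [Matrix.mul_apply]
      refine Fin.cases ?_ (fun l => ?_) j
      · simp only [hom, Fin.cons_zero, mul_one, Matrix.of_apply]
        exact (hb1 i).symm
      · simp only [hom, Fin.cons_succ, Matrix.of_apply]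
        exact hb i l
    have hfin : ρ ^ d ≤ Real.exp (-(T / (8 * ((d : ℝ) + 1) ^ 2))) * (2 * d * B) ^ d := by
      calc ρ ^ d = |(hom p).det| := by rw [hpdet, abs_of_pos (pow_pos hρ d)]
        _ = |(Matrix.of b).det| * |(hom (V T)).det| := by rw [hmul, Matrix.det_mul, abs_mul]
        _ ≤ 1 * |(hom (V T)).det| :=
            mul_le_mul_of_nonneg_right (abs_det_le_one _ hb0 hb1) (abs_nonneg _)
        _ = |(hom (V T)).det| := one_mul _
        _ ≤ _ := hdet T le_rfl
    have hlog := Real.log_le_log (pow_pos hρ d) hfin
    have h2dB : (0 : ℝ) < 2 * d * B := by positivity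
    rw [Real.log_mul (Real.exp_pos _).ne' (pow_pos h2dB d).ne', Real.log_exp, Real.log_pow,
      Real.log_pow] at hlog
    rw [Real.log_div h2dB.ne' hρ.ne'] at hT
    have h8 : (0 : ℝ) < 8 * ((d : ℝ) + 1) ^ 2 := by positivity
    have h9 : (T : ℝ) / (8 * ((d : ℝ) + 1) ^ 2) ≤
        d * (Real.log (2 * d * B) - Real.log ρ) := by
      have : (d : ℝ) * (Real.log (2 * d * B) - Real.log ρ) =
        d * Real.log (2 * d * B) - d * Real.log ρ := by ring
      linarith
    rw [div_le_iff₀ h8] at h9
    linarith

end

end Pool.Agent.Helper41.FR
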